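import Pool.Agent.Helper46.T5.Stmts
import Pool.Agent.Helper88.T4.Peak

set_option autoImplicit false

/-! Module LAPF of the project T5: the Laplace method with the gauge fixing. -/

open Finset MeasureTheory Filter Topology

namespace Pool.Agent.Helper32.T5

open Pool.Agent.Helper15.T4 Pool.Agent.Helper46.T5 Pool.Agent.Helper88.T4

/-- the index type -/
abbrev Ix (K : ℕ) : Type := Fin K × Fin 2 → Fin 3

theorem card_Ix (K : ℕ) : (Fintype.card (Ix K) : ℝ) = (9 : ℝ) ^ K := by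
  rw [Fintype.card_fun, Fintype.card_prod, Fintype.card_fin, Fintype.card_fin, Fintype.card_fin]
  push_cast
  rw [mul_comm, pow_mul]
  norm_num

theorem qq_pos : 0 < qq := by
  unfold qq
  positivity

theorem cont_TJ (K : ℕ) : Continuous (fun y : Ix K → ℝ => TJ (Fin K × Fin 2) y y y) := by
  unfold TJ
  fun_prop

theorem cont_fv (K : ℕ) : Continuous (fv K) := by
  unfold fv
  have h1 := cont_TJ K
  have h2 := continuous_nsq (ι := Ix K)
  fun_prop

/-- the integrand -/
noncomputable def FF (K N : ℕ) (y : Ix K → ℝ) : ℝ :=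
  fv K y ^ (2 * N) * Real.exp (-(N : ℝ) * nsq (fun a => y a - u0 K a)) / Psi K N y

theorem cont_FF (hPSC : ST_PSC) (K N : ℕ) : Continuous (FF K N) := by
  obtain ⟨h1, h2, -⟩ := hPSC K N
  have h3 := cont_fv K
  have h4 := continuous_nsq (ι := Ix K)
  unfold FF
  apply Continuous.div _ h1 (fun x => (h2 x).ne')
  apply (h3.pow _).mul
  apply Real.continuous_exp.comp
  apply continuous_const.mul
  apply h4.comp
  fun_prop

theorem FF_nonneg (hPSC : ST_PSC) (K N : ℕ) (y : Ix K → ℝ) : 0 ≤ FF K N y := by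
  have h2 := (hPSC K N).2.1 y
  unfold FF
  have h3 : 0 ≤ fv K y ^ (2 * N) := by
    rw [pow_mul]
    positivity
  positivity

theorem PG_TJ (K N : ℕ) :
    PG (fun y : Ix K → ℝ => ((TJ (Fin K × Fin 2) y y y : ℝ) : ℂ) ^ N) := by
  have h1 : PG (fun y : Ix K → ℝ => ((TJ (Fin K × Fin 2) y y y : ℝ) : ℂ)) := by
    have h2 : PG (fun y : Ix K → ℝ => ∑ a : Ix K, ∑ b : Ix K, ∑ c : Ix K,
        (∏ j, ((eps (a j) (b j) (c j) : ℤ) : ℂ)) * (y a : ℂ) * (y b : ℂ) * (y c : ℂ)) := by
      refine PG.sum _ _ (fun a _ => PG.sum _ _ (fun b _ => PG.sum _ _ (fun c _ => ?_)))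
      exact (((PG.const _).mul (PG.coord a)).mul (PG.coord b)).mul (PG.coord c)
    have h3 : (fun y : Ix K → ℝ => ((TJ (Fin K × Fin 2) y y y : ℝ) : ℂ)) =
        (fun y : Ix K → ℝ => ∑ a : Ix K, ∑ b : Ix K, ∑ c : Ix K,
        (∏ j, ((eps (a j) (b j) (c j) : ℤ) : ℂ)) * (y a : ℂ) * (y b : ℂ) * (y c : ℂ)) := by
      funext y
      unfold TJ
      push_cast
      rfl
    rw [h3]
    exact h2
  have h4 := PG.prod (Finset.range N) (fun _ => (fun y : Ix K → ℝ =>
    ((TJ (Fin K × Fin 2) y y y : ℝ) : ℂ))) (fun _ _ => h1)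
  simpa [Finset.prod_const] using h4

theorem nsq_sub_le' {ι : Type} [Fintype ι] (x y : ι → ℝ) :
    nsq (fun a => x a - y a) ≤ 2 * nsq x + 2 * nsq y := nsq_sub_le x y

theorem FF_int (hL : ST_LOW1) (hPSC : ST_PSC) (K N : ℕ) (hN : 1 ≤ N) : Integrable (FF K N) := by
  obtain ⟨c, hc, h1⟩ := hL K
  have hNpos : (0 : ℝ) < N := by exact_mod_cast hN
  have hN1 : (1 : ℝ) ≤ N := by exact_mod_cast hN
  have hq := qq_pos
  have hI := ((PG_TJ K (2 * N)).integrable 2 two_pos).norm.const_mul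
    ((N : ℝ) ^ (3 * K) / c * Real.exp (3 * N + nsq (u0 K) + 2) / (qq ^ K) ^ (2 * N))
  refine hI.mono' (cont_FF hPSC K N).aestronglyMeasurable ?_
  filter_upwards with y
  rw [Real.norm_eq_abs, abs_of_nonneg (FF_nonneg hPSC K N y), norm_mul, norm_pow, Complex.norm_real,
    Complex.norm_real, Real.norm_eq_abs, Real.norm_eq_abs, abs_of_pos (Real.exp_pos _)]
  have h2 := h1 N hN y
  set s := nsq (fun a => y a - u0 K a) with hs
  have hs0 : 0 ≤ s := nsq_nonneg _
  have hs1 : s ≤ 2 * nsq y + 2 * nsq (u0 K) := nsq_sub_le' _ _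
  have hsq : Real.sqrt s ^ 2 = s := Real.sq_sqrt hs0
  have hs2 : 2 * Real.sqrt s ≤ nsq y + nsq (u0 K) + 2 := by
    nlinarith [sq_nonneg (Real.sqrt s - 2)]
  have hLp : 0 < c / (N : ℝ) ^ (3 * K) * Real.exp (-(N : ℝ) * s - 2 * Real.sqrt s) := by positivity
  have hny := nsq_nonneg y
  unfold FF
  rw [← hs]
  have hf : fv K y ^ (2 * N) = |TJ (Fin K × Fin 2) y y y| ^ (2 * N) *
      Real.exp (-(3 * N * (nsq y - 1))) / (qq ^ K) ^ (2 * N) := by
    unfold fv
    rw [div_pow, mul_pow, ← Real.exp_nat_mul, (even_two_mul N).pow_abs]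
    have e9 : ((2 * N : ℕ) : ℝ) * (-(3 / 2) * (nsq y - 1)) = -(3 * N * (nsq y - 1)) := by
      push_cast
      ring
    rw [e9]
  rw [hf]
  have hT : 0 ≤ |TJ (Fin K × Fin 2) y y y| ^ (2 * N) := by positivity
  calc |TJ (Fin K × Fin 2) y y y| ^ (2 * N) * Real.exp (-(3 * N * (nsq y - 1))) / (qq ^ K) ^ (2 * N) *
        Real.exp (-(N : ℝ) * s) / Psi K N y ≤
        |TJ (Fin K × Fin 2) y y y| ^ (2 * N) * Real.exp (-(3 * N * (nsq y - 1))) / (qq ^ K) ^ (2 * N) *
        Real.exp (-(N : ℝ) * s) /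
          (c / (N : ℝ) ^ (3 * K) * Real.exp (-(N : ℝ) * s - 2 * Real.sqrt s)) := by
        gcongr
    _ = (N : ℝ) ^ (3 * K) / c / (qq ^ K) ^ (2 * N) * |TJ (Fin K × Fin 2) y y y| ^ (2 * N) *
          (Real.exp (-(3 * N * (nsq y - 1))) * Real.exp (2 * Real.sqrt s)) := by
        have e1 : Real.exp (-(N : ℝ) * s - 2 * Real.sqrt s) =
            Real.exp (-(N : ℝ) * s) / Real.exp (2 * Real.sqrt s) := by
          rw [Real.exp_sub]
        rw [e1]
        field_simp
    _ ≤ (N : ℝ) ^ (3 * K) / c / (qq ^ K) ^ (2 * N) * |TJ (Fin K × Fin 2) y y y| ^ (2 * N) *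
          (Real.exp (3 * N + nsq (u0 K) + 2) * Real.exp (-(2 * nsq y))) := by
        have e2 : Real.exp (-(3 * N * (nsq y - 1))) * Real.exp (2 * Real.sqrt s) ≤
            Real.exp (3 * N + nsq (u0 K) + 2) * Real.exp (-(2 * nsq y)) := by
          rw [← Real.exp_add, ← Real.exp_add]
          apply Real.exp_le_exp.mpr
          nlinarith
        gcongr
    _ = (N : ℝ) ^ (3 * K) / c * Real.exp (3 * N + nsq (u0 K) + 2) / (qq ^ K) ^ (2 * N) *
          (|TJ (Fin K × Fin 2) y y y| ^ (2 * N) * Real.exp (-(2 * nsq y))) := by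
        ring

/-! ### Homogeneity -/

theorem TJ_smul (K : ℕ) (s : ℝ) (u h : Ix K → ℝ) :
    TJ (Fin K × Fin 2) u (s • h) (s • h) = s ^ 2 * TJ (Fin K × Fin 2) u h h := by
  unfold TJ
  simp only [Finset.mul_sum, Pi.smul_apply, smul_eq_mul]
  refine Finset.sum_congr rfl (fun a _ => Finset.sum_congr rfl (fun b _ =>
    Finset.sum_congr rfl (fun c _ => ?_)))
  ring

theorem ip_smul (K : ℕ) (s : ℝ) (u h : Ix K → ℝ) : ip u (s • h) = s * ip u h := by
  unfold ip
  simp only [Finset.mul_sum, Pi.smul_apply, smul_eq_mul]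
  refine Finset.sum_congr rfl (fun a _ => ?_)
  ring

theorem Q5_smul (K : ℕ) (s : ℝ) (h : Ix K → ℝ) : Q5 K (s • h) = s ^ 2 * Q5 K h := by
  unfold Q5
  rw [TJ_smul, ip_smul, nsq_smul]
  ring

theorem tq_smul (K : ℕ) (s : ℝ) (h : Ix K → ℝ) : tq K (s • h) = s ^ 2 * tq K h := by
  unfold tq
  rw [Finset.mul_sum]
  refine Finset.sum_congr rfl (fun b _ => ?_)
  rw [ip_smul]
  ring

theorem fv_u0 (hEXP : ST_EXP5) (K : ℕ) : fv K (u0 K) = 1 := by
  obtain ⟨C, hC⟩ := hEXP K
  have h0 : nsq (0 : Ix K → ℝ) = 0 := by simp [nsq]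
  have h1 := hC 0 (by rw [h0]; norm_num)
  have h2 : Q5 K (0 : Ix K → ℝ) = 0 := by
    have := Q5_smul K 0 (0 : Ix K → ℝ)
    rw [zero_smul] at this
    rw [this]
    ring
  rw [h0, h2] at h1
  simp at h1
  have h3 : (fun a => u0 K a) = u0 K := rfl
  rw [h3] at h1
  linarith

/-- the limit of the powers of the vertex function -/
theorem fv_lim (hEXP : ST_EXP5) (K : ℕ) (s : Ix K → ℝ) :
    Tendsto (fun k : ℕ => fv K (u0 K + (Real.sqrt k)⁻¹ • s) ^ k) atTop
      (𝓝 (Real.exp (-(Q5 K s) / 2))) := by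
  obtain ⟨C0, hC⟩ := hEXP K
  have hnn := nsq_nonneg s
  have hg : Tendsto (fun k : ℕ => (k : ℝ) * (fv K (u0 K + (Real.sqrt k)⁻¹ • s) - 1)) atTop
      (𝓝 (-(Q5 K s) / 2)) := by
    rw [tendsto_iff_norm_sub_tendsto_zero]
    have hlim : Tendsto (fun k : ℕ => (max C0 0 * Real.sqrt (nsq s) ^ 3) * (Real.sqrt k)⁻¹) atTop
        (𝓝 ((max C0 0 * Real.sqrt (nsq s) ^ 3) * 0)) := by
      apply Tendsto.const_mul
      apply Tendsto.inv_tendsto_atTop
      exact Real.tendsto_sqrt_atTop.comp tendsto_natCast_atTop_atTop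
    rw [mul_zero] at hlim
    refine squeeze_zero' (Eventually.of_forall (fun _ => norm_nonneg _)) ?_ hlim
    have hev : ∀ᶠ k : ℕ in atTop, nsq s ≤ k ∧ 1 ≤ k := by
      have h1 : ∀ᶠ k : ℕ in atTop, nsq s ≤ (k : ℝ) :=
        tendsto_natCast_atTop_atTop.eventually_ge_atTop _
      exact h1.and (eventually_ge_atTop 1)
    filter_upwards [hev] with k hk
    obtain ⟨hk1, hk2⟩ := hk
    have hkpos : (0 : ℝ) < k := by exact_mod_cast hk2
    have hsq : Real.sqrt k ^ 2 = k := Real.sq_sqrt hkpos.le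
    have hsp : 0 < Real.sqrt k := Real.sqrt_pos.mpr hkpos
    have hn : nsq ((Real.sqrt k)⁻¹ • s) = nsq s / k := by
      rw [nsq_smul, inv_pow, hsq]
      field_simp
    have hn1 : nsq ((Real.sqrt k)⁻¹ • s) ≤ 1 := by
      rw [hn, div_le_one hkpos]
      exact hk1
    have h1 := hC _ hn1
    have h2 : Q5 K ((Real.sqrt k)⁻¹ • s) = Q5 K s / (k : ℝ) := by
      rw [Q5_smul, inv_pow, hsq]
      ring
    rw [h2, hn] at h1
    have h3 : Real.sqrt (nsq s / k) ^ 3 = Real.sqrt (nsq s) ^ 3 / Real.sqrt k ^ 3 := by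
      rw [Real.sqrt_div hnn, div_pow]
    rw [h3] at h1
    have hfe : fv K (fun a => u0 K a + ((Real.sqrt k)⁻¹ • s) a) = fv K (u0 K + (Real.sqrt k)⁻¹ • s) :=
      rfl
    rw [hfe] at h1
    have h4 : (k : ℝ) * (fv K (u0 K + (Real.sqrt k)⁻¹ • s) - 1) - -(Q5 K s) / 2 =
        (k : ℝ) * (fv K (u0 K + (Real.sqrt k)⁻¹ • s) - (1 - Q5 K s / (k : ℝ) / 2)) := by
      field_simp
      ring
    rw [h4, norm_mul, Real.norm_natCast, Real.norm_eq_abs]
    calc (k : ℝ) * |fv K (u0 K + (Real.sqrt k)⁻¹ • s) - (1 - Q5 K s / (k : ℝ) / 2)| ≤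
          (k : ℝ) * (max C0 0 * (Real.sqrt (nsq s) ^ 3 / Real.sqrt k ^ 3)) := by
          gcongr
          refine h1.trans ?_
          gcongr
          exact le_max_left _ _
      _ = (max C0 0 * Real.sqrt (nsq s) ^ 3) * (Real.sqrt k)⁻¹ := by
          rw [← hsq]
          field_simp
          rw [Real.sqrt_sq hsp.le]
          ring
  have h5 := Real.tendsto_one_add_pow_exp_of_tendsto hg
  simpa using h5

/-- the bound near the peak -/
theorem near (hLOW2 : ST_LOW2) (hEXP : ST_EXP5) (hHES : ST_HES) (K : ℕ) :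
    ∃ r A : ℝ, 0 < r ∧ 0 ≤ A ∧ ∀ N : ℕ, 1 ≤ N → ∀ h : Ix K → ℝ, nsq h ≤ r →
      FF K N (u0 K + h) ≤ A * (N : ℝ) ^ (3 * (K : ℝ) / 2) * Real.exp (-((N : ℝ) / 2 * nsq h)) := by
  obtain ⟨c, r1, C2, hc, hr1, hlow⟩ := hLOW2 K
  obtain ⟨C1, hC1⟩ := hEXP K
  -- positivity of fv near the peak
  have hpos : ∀ᶠ h : Ix K → ℝ in 𝓝 0, 0 < fv K (u0 K + h) := by
    have h1 : Tendsto (fun h : Ix K → ℝ => fv K (u0 K + h)) (𝓝 0) (𝓝 1) := by
      have h2 : Continuous (fun h : Ix K → ℝ => fv K (u0 K + h)) :=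
        (cont_fv K).comp (continuous_const.add continuous_id)
      have h3 := h2.tendsto 0
      rw [add_zero, fv_u0 hEXP] at h3
      exact h3
    exact h1.eventually (lt_mem_nhds one_pos)
  obtain ⟨δ, hδ, hball⟩ := Metric.eventually_nhds_iff.mp hpos
  set D : ℝ := 2 * max C1 0 + max C2 0 with hD
  have hD0 : 0 ≤ D := by positivity
  obtain ⟨r, hr, hr_1, hr_2, hr_3, hr_4⟩ : ∃ r : ℝ, 0 < r ∧ r ≤ 1 ∧ r ≤ r1 ∧ r ≤ (δ / 2) ^ 2 ∧
      D * Real.sqrt r ≤ 1 / 2 := by
    refine ⟨min (min 1 r1) (min ((δ / 2) ^ 2) ((1 / (2 * (D + 1))) ^ 2)), by positivity, ?_, ?_, ?_, ?_⟩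
    · exact (min_le_left _ _).trans (min_le_left _ _)
    · exact (min_le_left _ _).trans (min_le_right _ _)
    · exact (min_le_right _ _).trans (min_le_left _ _)
    · have h1 : Real.sqrt (min (min 1 r1) (min ((δ / 2) ^ 2) ((1 / (2 * (D + 1))) ^ 2))) ≤
          1 / (2 * (D + 1)) := by
        rw [← Real.sqrt_sq (show 0 ≤ 1 / (2 * (D + 1)) by positivity)]
        apply Real.sqrt_le_sqrt
        rw [Real.sqrt_sq (show 0 ≤ 1 / (2 * (D + 1)) by positivity)]
        exact (min_le_right _ _).trans (min_le_right _ _)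
      calc D * Real.sqrt (min (min 1 r1) (min ((δ / 2) ^ 2) ((1 / (2 * (D + 1))) ^ 2))) ≤
          D * (1 / (2 * (D + 1))) := by gcongr
        _ ≤ 1 / 2 := by
          rw [mul_one_div, div_le_div_iff₀ (by positivity) two_pos]
          linarith
  refine ⟨r, 1 / c, hr, by positivity, ?_⟩
  intro N hN h hh
  have hNpos : (0 : ℝ) < N := by exact_mod_cast hN
  have hn := nsq_nonneg h
  have hnr : Real.sqrt (nsq h) ≤ Real.sqrt r := Real.sqrt_le_sqrt hh
  have hsq : Real.sqrt (nsq h) ^ 2 = nsq h := Real.sq_sqrt hn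
  have hs0 : 0 ≤ Real.sqrt (nsq h) := Real.sqrt_nonneg _
  have hf0 : 0 < fv K (u0 K + h) := by
    apply hball
    rw [dist_zero_right]
    calc ‖h‖ ≤ Real.sqrt (nsq h) := norm_le_sqrt_nsq h
      _ ≤ Real.sqrt r := hnr
      _ ≤ Real.sqrt ((δ / 2) ^ 2) := Real.sqrt_le_sqrt hr_3
      _ = δ / 2 := Real.sqrt_sq (by positivity)
      _ < δ := by linarith
  have hexp := hC1 h (hh.trans hr_1)
  have hfe : fv K (fun a => u0 K a + h a) = fv K (u0 K + h) := rfl
  rw [hfe] at hexp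
  set c3 : ℝ := Real.sqrt (nsq h) ^ 3 with hc3
  have hc30 : 0 ≤ c3 := by positivity
  have hfle : fv K (u0 K + h) ≤ Real.exp (-(Q5 K h / 2) + max C1 0 * c3) := by
    have h1 := (abs_le.mp hexp).2
    have h2 : C1 * c3 ≤ max C1 0 * c3 := by
      gcongr
      exact le_max_left _ _
    have h3 := Real.add_one_le_exp (-(Q5 K h / 2) + max C1 0 * c3)
    linarith
  have hfpow : fv K (u0 K + h) ^ (2 * N) ≤
      Real.exp (-((N : ℝ) * Q5 K h) + 2 * N * (max C1 0) * c3) := by
    calc fv K (u0 K + h) ^ (2 * N) ≤ Real.exp (-(Q5 K h / 2) + max C1 0 * c3) ^ (2 * N) := by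
          gcongr
      _ = Real.exp (-((N : ℝ) * Q5 K h) + 2 * N * (max C1 0) * c3) := by
          rw [← Real.exp_nat_mul]
          congr 1
          push_cast
          ring
  have hl := hlow N hN h (hh.trans hr_2)
  have hle : Psi K N (fun a => u0 K a + h a) = Psi K N (u0 K + h) := rfl
  rw [hle, ← hc3] at hl
  obtain ⟨-, hes1, hes2, hes3⟩ := hHES K h
  have hu : (fun a => (u0 K + h) a - u0 K a) = h := by
    funext a
    simp
  unfold FF
  rw [hu]
  have hLp : 0 < c / (N : ℝ) ^ (3 * (K : ℝ) / 2) *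
    Real.exp (-(N : ℝ) * (nsq h - tq K h) - C2 * N * c3) := by positivity
  have hf1 : 0 ≤ fv K (u0 K + h) ^ (2 * N) := by positivity
  calc fv K (u0 K + h) ^ (2 * N) * Real.exp (-(N : ℝ) * nsq h) / Psi K N (u0 K + h) ≤
      Real.exp (-((N : ℝ) * Q5 K h) + 2 * N * (max C1 0) * c3) * Real.exp (-(N : ℝ) * nsq h) /
        (c / (N : ℝ) ^ (3 * (K : ℝ) / 2) *
          Real.exp (-(N : ℝ) * (nsq h - tq K h) - C2 * N * c3)) := by
        gcongr
    _ = 1 / c * (N : ℝ) ^ (3 * (K : ℝ) / 2) *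
        (Real.exp (-((N : ℝ) * Q5 K h) + 2 * N * (max C1 0) * c3) * Real.exp (-(N : ℝ) * nsq h) *
          (Real.exp (-(N : ℝ) * (nsq h - tq K h) - C2 * N * c3))⁻¹) := by
        field_simp
    _ ≤ 1 / c * (N : ℝ) ^ (3 * (K : ℝ) / 2) * Real.exp (-((N : ℝ) / 2 * nsq h)) := by
        gcongr
        rw [← Real.exp_neg, ← Real.exp_add, ← Real.exp_add]
        apply Real.exp_le_exp.mpr
        have h5 : D * c3 ≤ 1 / 2 * nsq h := by
          calc D * c3 = D * Real.sqrt (nsq h) * nsq h := by rw [hc3, pow_succ', hsq]; ring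
            _ ≤ D * Real.sqrt r * nsq h := by gcongr
            _ ≤ 1 / 2 * nsq h := by gcongr
        have h6 : C2 * c3 ≤ max C2 0 * c3 := by
          gcongr
          exact le_max_left _ _
        have h7 : -(Q5 K h) + 2 * (max C1 0) * c3 - nsq h + (nsq h - tq K h) + C2 * c3 ≤
            -(1 / 2 * nsq h) := by
          have h8 : D * c3 = 2 * (max C1 0) * c3 + max C2 0 * c3 := by rw [hD]; ring
          linarith
        calc -((N : ℝ) * Q5 K h) + 2 * N * (max C1 0) * c3 + -(N : ℝ) * nsq h +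
            -(-(N : ℝ) * (nsq h - tq K h) - C2 * N * c3) =
            N * (-(Q5 K h) + 2 * (max C1 0) * c3 - nsq h + (nsq h - tq K h) + C2 * c3) := by ring
          _ ≤ N * -(1 / 2 * nsq h) := by gcongr
          _ = -((N : ℝ) / 2 * nsq h) := by ring

/-- change of variables -/
theorem cov_int (K N : ℕ) (hN : 1 ≤ N) (S : Set (Ix K → ℝ)) (hS : MeasurableSet S)
    (F : (Ix K → ℝ) → ℝ) (u : Ix K → ℝ) :
    ∫ t, S.indicator F (u + (Real.sqrt (2 * (N : ℝ)))⁻¹ • t) =
      (2 * (N : ℝ)) ^ ((9 : ℝ) ^ K / 2) * ∫ y in S, F y := by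
  have hNpos : (0 : ℝ) < 2 * (N : ℝ) := by
    have : (1 : ℝ) ≤ N := by exact_mod_cast hN
    linarith
  have h1 := Measure.integral_comp_inv_smul (volume : Measure (Ix K → ℝ))
    (fun y => S.indicator F (u + y)) (Real.sqrt (2 * (N : ℝ)))
  rw [h1, integral_add_left_eq_self (fun y => S.indicator F y) u,
    integral_indicator hS, Module.finrank_fintype_fun_eq_card]
  have h2 : |Real.sqrt (2 * (N : ℝ)) ^ Fintype.card (Ix K)| = (2 * (N : ℝ)) ^ ((9 : ℝ) ^ K / 2) := by
    rw [abs_of_nonneg (by positivity), Real.sqrt_eq_rpow, ← Real.rpow_natCast,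
      ← Real.rpow_mul hNpos.le, card_Ix]
    congr 1
    ring
  rw [h2, smul_eq_mul]

theorem CK_pos (K : ℕ) : 0 < CK K := by
  unfold CK
  have := Real.pi_pos
  positivity

/-- Module LAPF. -/
theorem st_LAPF (hOUT : ST_OUT) (hLIM : ST_LIM) (hLOW1 : ST_LOW1) (hLOW2 : ST_LOW2)
    (hEXP : ST_EXP5) (hHES : ST_HES) (hPSC : ST_PSC) : ST_LAPF := by
  intro K
  obtain ⟨r, A, hr, hA, hnear⟩ := near hLOW2 hEXP hHES K
  obtain ⟨c, C, hc, hout⟩ := hOUT K r hr
  have hck := CK_pos K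
  -- near part
  set S : Set (Ix K → ℝ) := {y | nsq (fun a => y a - u0 K a) < r} with hSdef
  have hScont : Continuous (fun y : Ix K → ℝ => nsq (fun a => y a - u0 K a)) :=
    (continuous_nsq (ι := Ix K)).comp (by fun_prop)
  have hSo : IsOpen S := isOpen_lt hScont continuous_const
  have hS : MeasurableSet S := hSo.measurableSet
  have hSc : Sᶜ = {y : Ix K → ℝ | r ≤ nsq (fun a => y a - u0 K a)} := by
    ext y
    simp [hSdef]
  have hmain : Tendsto (fun N : ℕ => ∫ t, (2 * (N : ℝ)) ^ (-(3 * (K : ℝ) / 2)) *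
      S.indicator (FF K N) (u0 K + (Real.sqrt (2 * (N : ℝ)))⁻¹ • t)) atTop
      (𝓝 (∫ t, Real.exp (-(Q5 K t) / 2) * (CK K * Real.exp (tq K t / 2))⁻¹)) := by
    apply tendsto_integral_filter_of_dominated_convergence
      (fun t : Ix K → ℝ => A * Real.exp (-(1 / 4 * nsq t)))
    · filter_upwards with N
      have h1 : StronglyMeasurable (S.indicator (FF K N)) :=
        (cont_FF hPSC K N).stronglyMeasurable.indicator hS
      have h2 : Measurable (fun t : Ix K → ℝ => u0 K + (Real.sqrt (2 * (N : ℝ)))⁻¹ • t) := by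
        apply Continuous.measurable
        fun_prop
      exact (h1.comp_measurable h2).aestronglyMeasurable.const_mul _
    · filter_upwards [eventually_ge_atTop 1] with N hN
      filter_upwards with t
      have hNpos : (0 : ℝ) < (N : ℝ) := by exact_mod_cast hN
      have h2N : (0 : ℝ) < 2 * (N : ℝ) := by linarith
      rw [norm_mul, Real.norm_eq_abs, Real.norm_eq_abs, abs_of_pos (by positivity)]
      by_cases ht : u0 K + (Real.sqrt (2 * (N : ℝ)))⁻¹ • t ∈ S
      · rw [Set.indicator_of_mem ht, abs_of_nonneg (FF_nonneg hPSC K N _)]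
        have h3 : nsq ((Real.sqrt (2 * (N : ℝ)))⁻¹ • t) ≤ r := by
          have h4 : nsq (fun a => (u0 K + (Real.sqrt (2 * (N : ℝ)))⁻¹ • t) a - u0 K a) < r := ht
          have h5 : (fun a => (u0 K + (Real.sqrt (2 * (N : ℝ)))⁻¹ • t) a - u0 K a) =
              (Real.sqrt (2 * (N : ℝ)))⁻¹ • t := by
            funext a
            simp
          rw [h5] at h4
          exact h4.le
        have h6 := hnear N hN _ h3
        have h7 : nsq ((Real.sqrt (2 * (N : ℝ)))⁻¹ • t) = nsq t / (2 * N) := by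
          rw [nsq_smul, inv_pow, Real.sq_sqrt h2N.le]
          field_simp
        rw [h7] at h6
        calc (2 * (N : ℝ)) ^ (-(3 * (K : ℝ) / 2)) *
              FF K N (u0 K + (Real.sqrt (2 * (N : ℝ)))⁻¹ • t) ≤
              (2 * (N : ℝ)) ^ (-(3 * (K : ℝ) / 2)) * (A * (N : ℝ) ^ (3 * (K : ℝ) / 2) *
                Real.exp (-((N : ℝ) / 2 * (nsq t / (2 * N))))) := by
              gcongr
          _ = ((2 * (N : ℝ)) ^ (-(3 * (K : ℝ) / 2)) * (N : ℝ) ^ (3 * (K : ℝ) / 2)) *
                (A * Real.exp (-(1 / 4 * nsq t))) := by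
              have h8 : (N : ℝ) / 2 * (nsq t / (2 * N)) = 1 / 4 * nsq t := by
                field_simp
                ring
              rw [h8]
              ring
          _ ≤ 1 * (A * Real.exp (-(1 / 4 * nsq t))) := by
              gcongr
              rw [Real.rpow_neg h2N.le, inv_mul_le_iff₀ (by positivity), mul_one]
              apply Real.rpow_le_rpow hNpos.le (by linarith) (by positivity)
          _ = A * Real.exp (-(1 / 4 * nsq t)) := one_mul _
      · rw [Set.indicator_of_notMem ht, abs_zero, mul_zero]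
        positivity
    · have h1 := ((PG.const (ι := Ix K) 1).integrable (1 / 4) (by norm_num)).norm.const_mul A
      refine h1.congr ?_
      filter_upwards with t
      rw [one_mul, Complex.norm_real, Real.norm_eq_abs, abs_of_pos (Real.exp_pos _)]
    · filter_upwards with t
      have hf := fv_lim hEXP K t
      have h2 : Tendsto (fun N : ℕ => 2 * N) atTop atTop :=
        tendsto_id.const_mul_atTop' (by norm_num)
      have hf2 := hf.comp h2
      have hl := (hLIM K t).inv₀ (by positivity)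
      have hprod := hf2.mul hl
      refine hprod.congr' ?_
      -- eventually in the open set
      have hin : ∀ᶠ N : ℕ in atTop, u0 K + (Real.sqrt (2 * (N : ℝ)))⁻¹ • t ∈ S := by
        have hpt : Tendsto (fun N : ℕ => u0 K + (Real.sqrt (2 * (N : ℝ)))⁻¹ • t) atTop
            (𝓝 (u0 K + (0 : ℝ) • t)) := by
          apply Tendsto.const_add
          apply Tendsto.smul_const
          apply Tendsto.inv_tendsto_atTop
          apply Real.tendsto_sqrt_atTop.comp
          exact tendsto_natCast_atTop_atTop.const_mul_atTop two_pos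
        rw [zero_smul, add_zero] at hpt
        have hu : u0 K ∈ S := by
          change nsq (fun a => u0 K a - u0 K a) < r
          simp only [sub_self]
          have : nsq (fun _ : Ix K => (0 : ℝ)) = 0 := by simp [nsq]
          rw [this]
          exact hr
        exact hpt.eventually (hSo.mem_nhds hu)
      filter_upwards [hin, eventually_ge_atTop 1] with N hN1 hN
      have hNpos : (0 : ℝ) < (N : ℝ) := by exact_mod_cast hN
      have h2N : (0 : ℝ) < 2 * (N : ℝ) := by linarith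
      rw [Set.indicator_of_mem hN1]
      simp only [Function.comp_apply]
      have e1 : ((2 * N : ℕ) : ℝ) = 2 * (N : ℝ) := by push_cast; ring
      rw [e1]
      have e2 : (fun a => u0 K a + t a / Real.sqrt (2 * (N : ℝ))) =
          u0 K + (Real.sqrt (2 * (N : ℝ)))⁻¹ • t := by
        funext a
        simp only [Pi.add_apply, Pi.smul_apply, smul_eq_mul]
        ring
      rw [e2]
      unfold FF
      have e3 : (fun a => (u0 K + (Real.sqrt (2 * (N : ℝ)))⁻¹ • t) a - u0 K a) =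
          (Real.sqrt (2 * (N : ℝ)))⁻¹ • t := by
        funext a
        simp
      have e4 : nsq ((Real.sqrt (2 * (N : ℝ)))⁻¹ • t) = nsq t / (2 * N) := by
        rw [nsq_smul, inv_pow, Real.sq_sqrt h2N.le]
        field_simp
      rw [e3, e4]
      have e5 : -(N : ℝ) * (nsq t / (2 * N)) = -(nsq t / 2) := by
        field_simp
      rw [e5, Real.rpow_neg h2N.le, Real.exp_neg]
      have hpsi := (hPSC K N).2.1 (u0 K + (Real.sqrt (2 * (N : ℝ)))⁻¹ • t)
      field_simp
  -- far part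
  have hfar : Tendsto (fun N : ℕ => (2 * (N : ℝ)) ^ (((9 : ℝ) ^ K - 3 * K) / 2) *
      ∫ y in Sᶜ, FF K N y) atTop (𝓝 0) := by
    have h1 : Tendsto (fun N : ℕ => (C * ((2 * (N : ℝ)) ^ (((9 : ℝ) ^ K - 3 * K) / 2) *
        Real.exp (-(c / 2) * (2 * (N : ℝ)))))) atTop (𝓝 (C * 0)) := by
      apply Tendsto.const_mul
      have h2 := tendsto_rpow_mul_exp_neg_mul_atTop_nhds_zero (((9 : ℝ) ^ K - 3 * K) / 2) (c / 2)
        (by positivity)
      exact h2.comp (tendsto_natCast_atTop_atTop.const_mul_atTop two_pos)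
    rw [mul_zero] at h1
    refine squeeze_zero' ?_ ?_ h1
    · filter_upwards with N
      apply mul_nonneg (by positivity)
      exact integral_nonneg (fun y => FF_nonneg hPSC K N y)
    · filter_upwards [eventually_ge_atTop 1] with N hN
      have h3 := hout N hN
      have h4 : ∫ y in Sᶜ, FF K N y ≤ C * Real.exp (-c * N) := by
        rw [hSc]
        exact h3
      calc (2 * (N : ℝ)) ^ (((9 : ℝ) ^ K - 3 * K) / 2) * ∫ y in Sᶜ, FF K N y ≤
            (2 * (N : ℝ)) ^ (((9 : ℝ) ^ K - 3 * K) / 2) * (C * Real.exp (-c * N)) := by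
            gcongr
        _ = C * ((2 * (N : ℝ)) ^ (((9 : ℝ) ^ K - 3 * K) / 2) *
            Real.exp (-(c / 2) * (2 * (N : ℝ)))) := by
            have : -c * (N : ℝ) = -(c / 2) * (2 * (N : ℝ)) := by ring
            rw [this]
            ring
  have hsum := hmain.add hfar
  rw [add_zero] at hsum
  have hval : (CK K)⁻¹ * ∫ t, Real.exp (-(Q5 K t + tq K t) / 2) =
      ∫ t, Real.exp (-(Q5 K t) / 2) * (CK K * Real.exp (tq K t / 2))⁻¹ := by
    rw [← integral_const_mul]
    congr 1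
    funext t
    rw [mul_inv, ← Real.exp_neg]
    have : -(Q5 K t + tq K t) / 2 = -(Q5 K t) / 2 + -(tq K t / 2) := by ring
    rw [this, Real.exp_add]
    ring
  rw [hval]
  refine hsum.congr' ?_
  filter_upwards [eventually_ge_atTop 1] with N hN
  have hNpos : (0 : ℝ) < (N : ℝ) := by exact_mod_cast hN
  have h2N : (0 : ℝ) < 2 * (N : ℝ) := by linarith
  have hint := FF_int hLOW1 hPSC K N hN
  change _ = (2 * (N : ℝ)) ^ (((9 : ℝ) ^ K - 3 * K) / 2) * ∫ y, FF K N y
  rw [integral_const_mul, cov_int K N hN S hS (FF K N) (u0 K), ← integral_add_compl hS hint, mul_add,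
    ← mul_assoc, ← Real.rpow_add h2N]
  congr 3
  ring

end Pool.Agent.Helper32.T5
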